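import Pool.Agent.H93.HQ.Targets

/-! # Board HQ, module N2: the upper bound for `p ≤ Q - 1` -/

namespace Pool.Agent.H86.HQ
open MeasureTheory Set Filter Topology Pool.Agent.H80.HS Pool.Agent.H93.HQ
open scoped ContDiff ENNReal

theorem pf_N2 (h : T_A2) : U_N2 := by
  obtain ⟨A, hA⟩ := h
  refine ⟨A + 4, fun n hn p hp1 hp2 => ?_⟩
  obtain ⟨hC, hCl⟩ := hA n hn
  have hn' : (1 : ℝ) ≤ n := by exact_mod_cast hn
  have hn0 : (0 : ℝ) < n := by linarith
  have hp0 : 0 < p := by linarith
  set Q : ℝ := 2 * (n : ℝ) + 2 with hQ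
  have hQ0 : 0 < Q := by linarith
  have hx : 0 < Q - p := by linarith
  have hx1 : 1 ≤ Q - p := by linarith
  set L : ℝ := Real.log (n + 1) with hL
  have hlog2 : (1 : ℝ) / 2 ≤ Real.log 2 := by
    have := Real.log_two_gt_d9
    linarith
  have hL2 : Real.log 2 ≤ L := Real.log_le_log (by norm_num) (by linarith)
  have hL1 : (1 : ℝ) ≤ 2 * L := by linarith
  have hL0 : 0 < L := by linarith
  -- the left side
  have e1 : Real.log ((Q * p / (Q - p) * CC n) ^ p) =
      p * (Real.log Q + Real.log p - Real.log (Q - p) + Real.log (CC n)) := by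
    have h1 : 0 < Q * p / (Q - p) := by positivity
    rw [Real.log_rpow (by positivity), Real.log_mul h1.ne' hC.ne',
      Real.log_div (by positivity) hx.ne', Real.log_mul hQ0.ne' hp0.ne']
  -- the main term
  have e2 : Real.log (MM n p) = p / 2 * (Real.log n - Real.log Real.pi - 1) + p * Real.log p -
      Real.log Q - (p - 1) * Real.log (Q - p) := by
    unfold MM
    rw [← hQ]
    have hpe : 0 < Real.pi * Real.exp 1 := by positivity
    rw [Real.log_div (by positivity) (by positivity), Real.log_mul (by positivity) (by positivity),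
      Real.log_rpow (by positivity), Real.log_rpow hp0, Real.log_div hn0.ne' hpe.ne',
      Real.log_mul Real.pi_pos.ne' (Real.exp_pos 1).ne', Real.log_exp,
      Real.log_mul hQ0.ne' (by positivity), Real.log_rpow hx]
    ring
  have e3 : Real.log (4 * Real.pi * Real.exp 1 * n) =
      2 * Real.log 2 + Real.log Real.pi + 1 + Real.log n := by
    rw [Real.log_mul (by positivity) hn0.ne', Real.log_mul (by positivity) (Real.exp_pos 1).ne',
      Real.log_mul (by norm_num) Real.pi_pos.ne', Real.log_exp]
    have : Real.log 4 = 2 * Real.log 2 := by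
      rw [show (4 : ℝ) = 2 ^ 2 by norm_num, Real.log_pow]
      norm_num
    rw [this]
  -- the two elementary inequalities
  have e4 : Real.log Q = Real.log 2 + L := by
    rw [hL, ← Real.log_mul (by norm_num) (by positivity)]
    congr 1
    rw [hQ]
    ring
  have i1 : L - Real.log n ≤ 2 * L / n := by
    rw [hL, ← Real.log_div (by positivity) hn0.ne']
    have h1 := Real.log_le_sub_one_of_pos (show 0 < ((n : ℝ) + 1) / n by positivity)
    have h2 : ((n : ℝ) + 1) / n - 1 = 1 / n := by field_simp; ring
    rw [h2] at h1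
    refine h1.trans ?_
    exact div_le_div_of_nonneg_right hL1 hn0.le
  have i2 : Real.log Q - Real.log (Q - p) ≤ 2 * p * L / n := by
    by_cases hpn : p ≤ n + 1
    · rw [← Real.log_div hQ0.ne' hx.ne']
      have h1 := Real.log_le_sub_one_of_pos (show 0 < Q / (Q - p) by positivity)
      have h2 : Q / (Q - p) - 1 = p / (Q - p) := by field_simp; ring
      rw [h2] at h1
      refine h1.trans ?_
      have h3 : p / (Q - p) ≤ p / n := by
        apply div_le_div_of_nonneg_left hp0.le hn0
        linarith
      refine h3.trans ?_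
      refine div_le_div_of_nonneg_right ?_ hn0.le
      nlinarith
    · push Not at hpn
      have h1 : 0 ≤ Real.log (Q - p) := Real.log_nonneg hx1
      have h2 : Real.log Q ≤ 2 * L := by linarith
      have h3 : 2 * L ≤ 2 * p * L / n := by
        rw [le_div_iff₀ hn0]
        nlinarith
      linarith
  rw [e1, e2]
  rw [e3] at hCl
  have h5 : p * Real.log (CC n) ≤
      p * (-(1 / 2) * (2 * Real.log 2 + Real.log Real.pi + 1 + Real.log n) + A * L / n) :=
    mul_le_mul_of_nonneg_left hCl hp0.le
  have h6 : p * (L - Real.log n) ≤ p * (2 * L / n) := mul_le_mul_of_nonneg_left i1 hp0.le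
  have e5 : (A + 4) * p * L / n = p * (A * L / n) + p * (2 * L / n) + 2 * p * L / n := by ring
  rw [e5]
  have e6 : p * (Real.log Q + Real.log p - Real.log (Q - p) + Real.log (CC n)) =
      p * Real.log Q + p * Real.log p - p * Real.log (Q - p) + p * Real.log (CC n) := by ring
  rw [e6]
  have e7 : p * Real.log Q = p * Real.log 2 + p * L := by rw [e4]; ring
  rw [e7]
  nlinarith [h5, h6, i2]

end Pool.Agent.H86.HQ
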