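import Pool.Agent.H93.HQ.Targets

/-! # Board HQ, module S1: comparison of `sg n s` and `sg n 0` -/

namespace Pool.Agent.H86.HQ
open MeasureTheory Set Filter Topology Pool.Agent.H80.HS Pool.Agent.H93.HQ
open scoped ContDiff ENNReal

/-- `Gamma x / Gamma (x + 1/2)` is antitone. -/
theorem s1_anti {x y : ℝ} (hx : 0 < x) (hxy : x ≤ y) :
    Real.Gamma y * Real.Gamma (x + 1 / 2) ≤ Real.Gamma x * Real.Gamma (y + 1 / 2) := by
  rcases hxy.eq_or_lt with h | h
  · rw [h]
  have hy : 0 < y := hx.trans h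
  have hd : 0 < y - x + 1 / 2 := by linarith
  set b : ℝ := (1 / 2) / (y - x + 1 / 2) with hb
  set a : ℝ := (y - x) / (y - x + 1 / 2) with ha
  have hb0 : 0 < b := by positivity
  have ha0 : 0 < a := div_pos (by linarith) hd
  have hab : a + b = 1 := by
    rw [ha, hb, ← add_div, div_self hd.ne']
  have hbd : b * (y - x + 1 / 2) = 1 / 2 := by rw [hb, div_mul_cancel₀ _ hd.ne']
  have had : a * (y - x + 1 / 2) = y - x := by rw [ha, div_mul_cancel₀ _ hd.ne']
  have e1 : x + 1 / 2 = a * x + b * (y + 1 / 2) := by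
    have : a = 1 - b := by linarith
    rw [this]
    linear_combination -hbd
  have e2 : y = b * x + a * (y + 1 / 2) := by
    have : b = 1 - a := by linarith
    rw [this]
    linear_combination -had
  have hGx : 0 < Real.Gamma x := Real.Gamma_pos_of_pos hx
  have hGy : 0 < Real.Gamma (y + 1 / 2) := Real.Gamma_pos_of_pos (by linarith)
  have h1 : Real.Gamma (x + 1 / 2) ≤ Real.Gamma x ^ a * Real.Gamma (y + 1 / 2) ^ b := by
    conv_lhs => rw [e1]
    exact Real.Gamma_mul_add_mul_le_rpow_Gamma_mul_rpow_Gamma hx (by linarith) ha0 hb0 hab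
  have h2 : Real.Gamma y ≤ Real.Gamma x ^ b * Real.Gamma (y + 1 / 2) ^ a := by
    conv_lhs => rw [e2]
    exact Real.Gamma_mul_add_mul_le_rpow_Gamma_mul_rpow_Gamma hx (by linarith) hb0 ha0
      (by linarith)
  calc Real.Gamma y * Real.Gamma (x + 1 / 2)
      ≤ (Real.Gamma x ^ b * Real.Gamma (y + 1 / 2) ^ a) *
        (Real.Gamma x ^ a * Real.Gamma (y + 1 / 2) ^ b) :=
        mul_le_mul h2 h1 (Real.Gamma_pos_of_pos (by linarith)).le (by positivity)
    _ = (Real.Gamma x ^ a * Real.Gamma x ^ b) *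
        (Real.Gamma (y + 1 / 2) ^ a * Real.Gamma (y + 1 / 2) ^ b) := by ring
    _ = Real.Gamma x * Real.Gamma (y + 1 / 2) := by
        rw [← Real.rpow_add hGx, ← Real.rpow_add hGy, hab, Real.rpow_one, Real.rpow_one]

theorem pf_S1 (h : U_SA) : U_S1 := by
  intro n hn s hs0 hs
  have hn' : (1 : ℝ) ≤ n := by exact_mod_cast hn
  set x : ℝ := (n : ℝ) / 2 with hx
  set y : ℝ := (2 * n + s) / 4 with hy
  have hx0 : 0 < x := by rw [hx]; linarith
  have hxy : x ≤ y := by rw [hx, hy]; linarith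
  have hy0 : 0 < y := hx0.trans_le hxy
  have hyn : y ≤ n + 1 / 2 := by rw [hy]; linarith
  have hc : 0 < 2 * Real.pi ^ ((n : ℝ) + 1 / 2) / Real.Gamma n := by
    have h1 : 0 < Real.Gamma (n : ℝ) := Real.Gamma_pos_of_pos (by linarith)
    positivity
  have e0 : sg n 0 = 2 * Real.pi ^ ((n : ℝ) + 1 / 2) / Real.Gamma n *
      (Real.Gamma x / Real.Gamma (x + 1 / 2)) := by
    unfold sg
    have h1 : (2 * (n : ℝ) + 0) / 4 = x := by rw [hx]; ring
    have h2 : (2 * (n : ℝ) + 2 + 0) / 4 = x + 1 / 2 := by rw [hx]; ring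
    rw [h1, h2]
  have e1 : sg n s = 2 * Real.pi ^ ((n : ℝ) + 1 / 2) / Real.Gamma n *
      (Real.Gamma y / Real.Gamma (y + 1 / 2)) := by
    unfold sg
    have h2 : (2 * (n : ℝ) + 2 + s) / 4 = y + 1 / 2 := by rw [hy]; ring
    rw [h2]
  have hGx : 0 < Real.Gamma x := Real.Gamma_pos_of_pos hx0
  have hGx' : 0 < Real.Gamma (x + 1 / 2) := Real.Gamma_pos_of_pos (by linarith)
  have hGy' : 0 < Real.Gamma (y + 1 / 2) := Real.Gamma_pos_of_pos (by linarith)
  constructor
  · rw [e0, e1]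
    refine mul_le_mul_of_nonneg_left ?_ hc.le
    rw [div_le_div_iff₀ hGy' hGx']
    exact s1_anti hx0 hxy
  · rw [e0, e1, mul_left_comm]
    refine mul_le_mul_of_nonneg_left ?_ hc.le
    have h1 := (h x hx0).2
    have h2 := (h y hy0).1
    refine h1.trans ?_
    refine le_trans ?_ (mul_le_mul_of_nonneg_left h2 (by norm_num : (0 : ℝ) ≤ 3))
    have hsy : 0 < Real.sqrt y := Real.sqrt_pos.2 hy0
    rw [mul_one_div, div_le_div_iff₀ hx0 hsy, ← Real.sqrt_mul (by linarith)]
    rw [Real.sqrt_le_left (by linarith)]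
    have h3 : (x + 1 / 2) * y ≤ (x + 1 / 2) * (n + 1 / 2) :=
      mul_le_mul_of_nonneg_left hyn (by linarith)
    refine h3.trans ?_
    rw [hx]
    nlinarith

end Pool.Agent.H86.HQ
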