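import Pool.Agent.H93.HQ.Targets

/-! # Board HQ, module FII: the second final statement -/

namespace Pool.Agent.H86.HQ
open MeasureTheory Set Filter Topology Pool.Agent.H80.HS Pool.Agent.H93.HQ
open scoped ContDiff ENNReal

theorem fii_sg_pos {n : ℕ} (hn : 1 ≤ n) {s : ℝ} (hs : 0 ≤ s) : 0 < sg n s := by
  have hn' : (1 : ℝ) ≤ n := by exact_mod_cast hn
  unfold sg
  have h1 : 0 < Real.Gamma n := Real.Gamma_pos_of_pos (by linarith)
  have h2 : 0 < Real.Gamma ((2 * n + s) / 4) := Real.Gamma_pos_of_pos (by linarith)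
  have h3 : 0 < Real.Gamma ((2 * n + 2 + s) / 4) := Real.Gamma_pos_of_pos (by linarith)
  positivity

theorem pf_FII (h1 : U_LP) (h2 : U_ST) (h3 : U_EX) (h4 : U_M1) (h5 : U_M2) (h6 : U_SQ)
    (h7 : T_G0) : U_FII := by
  intro n hn 𝕜 _
  have hn' : (1 : ℝ) ≤ n := by exact_mod_cast hn
  have hex : ∀ p : ℝ, 1 < p → p < 2 * n + 2 → ∃ C : ℝ,
      IsLeast {c : ℝ | SobolevIneq 𝕜 n p c} C ∧ LB2 n p ≤ C ∧ C ≤ UB n p 1 := by
    intro p hp1 hp2
    refine h3 𝕜 n p (LB2 n p) (UB n p 1) ?_ (h2 n hn 𝕜 p 1 hp1 hp2 one_pos)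
      (fun C hC => h1 n hn p C hp1 hp2 (h7 𝕜 n p C hC))
    have e0 : 0 < sg n 0 := fii_sg_pos hn le_rfl
    have e1 : 0 < sg n p := fii_sg_pos hn (by linarith)
    have e2 : 0 < (p - 1) / (2 * n + 2 - p) := div_pos (by linarith) (by linarith)
    unfold LB2
    positivity
  classical
  refine ⟨fun p => if h : 1 < p ∧ p < 2 * n + 2 then (hex p h.1 h.2).choose else 0, ?_, ?_⟩
  · intro p hp1 hp2
    have hp : 1 < p ∧ p < 2 * (n : ℝ) + 2 := ⟨hp1, hp2⟩
    simp only [dif_pos hp]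
    exact (hex p hp1 hp2).choose_spec.1
  · have hlim : (2 * (n : ℝ) + 1) ^ (2 * n + 1) * ((n.factorial : ℝ) * ((n - 1).factorial : ℝ)) /
        (2 * Real.pi ^ ((n : ℝ) + 1 / 2) * Real.Gamma (n + 1 / 2)) =
        (2 * n + 1) ^ (2 * n + 1) / sg n (2 * n + 2) := by
      rw [h6 n hn]
      rw [div_div_eq_mul_div]
    rw [hlim]
    have hmem : Ioo (1 : ℝ) (2 * (n : ℝ) + 2) ∈ 𝓝[<] (2 * (n : ℝ) + 2) :=
      Ioo_mem_nhdsLT (by linarith)
    refine tendsto_of_tendsto_of_tendsto_of_le_of_le' (h4 n hn) (h5 n hn) ?_ ?_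
    · filter_upwards [hmem] with p hp
      have hp' : 1 < p ∧ p < 2 * (n : ℝ) + 2 := hp
      simp only [dif_pos hp']
      have hx : 0 < 2 * (n : ℝ) + 2 - p := by linarith [hp.2]
      exact mul_le_mul_of_nonneg_left (hex p hp.1 hp.2).choose_spec.2.1 (by positivity)
    · filter_upwards [hmem] with p hp
      have hp' : 1 < p ∧ p < 2 * (n : ℝ) + 2 := hp
      simp only [dif_pos hp']
      have hx : 0 < 2 * (n : ℝ) + 2 - p := by linarith [hp.2]
      exact mul_le_mul_of_nonneg_left (hex p hp.1 hp.2).choose_spec.2.2 (by positivity)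

end Pool.Agent.H86.HQ
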