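import Pool.Agent.H93.HQ.Targets

/-! # Board HQ, module M2: the limit of the upper bound -/

namespace Pool.Agent.H86.HQ
open MeasureTheory Set Filter Topology Pool.Agent.H80.HS Pool.Agent.H93.HQ
open scoped ContDiff ENNReal

theorem m2_sg_pos {n : ℕ} (hn : 1 ≤ n) {s : ℝ} (hs : 0 ≤ s) : 0 < sg n s := by
  have hn' : (1 : ℝ) ≤ n := by exact_mod_cast hn
  unfold sg
  have h1 : 0 < Real.Gamma n := Real.Gamma_pos_of_pos (by linarith)
  have h2 : 0 < Real.Gamma ((2 * n + s) / 4) := Real.Gamma_pos_of_pos (by linarith)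
  have h3 : 0 < Real.Gamma ((2 * n + 2 + s) / 4) := Real.Gamma_pos_of_pos (by linarith)
  positivity

theorem m2_sg_cont {n : ℕ} (hn : 1 ≤ n) {s : ℝ} (hs : 0 ≤ s) : ContinuousAt (sg n) s := by
  have hn' : (1 : ℝ) ≤ n := by exact_mod_cast hn
  have hG : ∀ x : ℝ, 0 < x → ContinuousAt Real.Gamma x := fun x hx =>
    (Real.differentiableAt_Gamma (fun m => by
      have : (0 : ℝ) ≤ m := Nat.cast_nonneg m
      linarith)).continuousAt
  have h2 : ContinuousAt (fun s : ℝ => Real.Gamma ((2 * n + s) / 4)) s :=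
    ContinuousAt.comp (f := fun s : ℝ => (2 * n + s) / 4) (g := Real.Gamma)
      (hG _ (by linarith)) (by fun_prop)
  have h3 : ContinuousAt (fun s : ℝ => Real.Gamma ((2 * n + 2 + s) / 4)) s :=
    ContinuousAt.comp (f := fun s : ℝ => (2 * n + 2 + s) / 4) (g := Real.Gamma)
      (hG _ (by linarith)) (by fun_prop)
  have h4 : Real.Gamma ((2 * n + 2 + s) / 4) ≠ 0 := (Real.Gamma_pos_of_pos (by linarith)).ne'
  exact (h2.div h3 h4).const_mul (2 * Real.pi ^ ((n : ℝ) + 1 / 2) / Real.Gamma n)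

/-- The rescaled constant. -/
theorem m2_key (n : ℕ) (Q p s s' x : ℝ) (hQ : Q = 2 * n + 2) (hx : x = Q - p) (hx0 : 0 < x)
    (hp : 1 < p) (hs : 0 < s) (hs' : 0 < s') :
    x ^ (2 * n + 1) * (s⁻¹ * ((s * (p - 1) / x) ^ (1 - 1 / p) + s')) ^ p =
      (s⁻¹ * ((s * (p - 1)) ^ (1 - 1 / p) * (x ^ x) ^ (1 / p) + s' * x ^ ((Q - 1) / p))) ^ p := by
  have hp0 : 0 < p := by linarith
  have hp1 : 0 < p - 1 := by linarith
  have e1 : x ^ (2 * n + 1) = (x ^ ((Q - 1) / p)) ^ p := by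
    rw [← Real.rpow_mul hx0.le, div_mul_cancel₀ _ hp0.ne', ← Real.rpow_natCast]
    congr 1
    rw [hQ]
    push_cast
    ring
  have hD : 0 ≤ s⁻¹ * ((s * (p - 1) / x) ^ (1 - 1 / p) + s') := by positivity
  rw [e1, ← Real.mul_rpow (by positivity) hD]
  congr 1
  have e2 : x ^ ((Q - 1) / p) * (s * (p - 1) / x) ^ (1 - 1 / p) =
      (s * (p - 1)) ^ (1 - 1 / p) * (x ^ x) ^ (1 / p) := by
    rw [Real.div_rpow (by positivity) hx0.le, ← Real.rpow_mul hx0.le]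
    have e3 : x ^ ((Q - 1) / p) = x ^ (x * (1 / p)) * x ^ (1 - 1 / p) := by
      rw [← Real.rpow_add hx0]
      congr 1
      have : Q = x + p := by linarith
      rw [this]
      field_simp
      ring
    have h3 : x ^ (1 - 1 / p) ≠ 0 := (Real.rpow_pos_of_pos hx0 _).ne'
    rw [e3]
    field_simp
  calc x ^ ((Q - 1) / p) * (s⁻¹ * ((s * (p - 1) / x) ^ (1 - 1 / p) + s'))
      = s⁻¹ * (x ^ ((Q - 1) / p) * (s * (p - 1) / x) ^ (1 - 1 / p) + s' * x ^ ((Q - 1) / p)) := by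
        ring
    _ = _ := by rw [e2]

theorem pf_M2 : U_M2 := by
  intro n hn
  have hn' : (1 : ℝ) ≤ n := by exact_mod_cast hn
  set Q : ℝ := 2 * (n : ℝ) + 2 with hQ
  have hQ0 : 0 < Q := by linarith
  have hx0 : Tendsto (fun p : ℝ => Q - p) (𝓝[<] Q) (𝓝[>] 0) := by
    refine tendsto_nhdsWithin_iff.2 ⟨?_, ?_⟩
    · have : Tendsto (fun p : ℝ => Q - p) (𝓝 Q) (𝓝 (Q - Q)) :=
        (continuous_const.sub continuous_id).tendsto Q
      rw [sub_self] at this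
      exact this.mono_left nhdsWithin_le_nhds
    · filter_upwards [self_mem_nhdsWithin] with p hp
      exact sub_pos.2 (show p < Q from hp)
  have hx1 : Tendsto (fun p : ℝ => Q - p) (𝓝[<] Q) (𝓝 0) := (tendsto_nhdsWithin_iff.1 hx0).1
  have hid : Tendsto (fun p : ℝ => p) (𝓝[<] Q) (𝓝 Q) := tendsto_id.mono_left nhdsWithin_le_nhds
  have hxx : Tendsto (fun p : ℝ => (Q - p) ^ (Q - p)) (𝓝[<] Q) (𝓝 1) := by
    have h1 : Tendsto (fun x : ℝ => x ^ x) (𝓝[>] 0) (𝓝 1) := by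
      have h2 : Tendsto (fun x : ℝ => Real.exp (Real.log x * x)) (𝓝[>] 0) (𝓝 (Real.exp 0)) :=
        (Real.continuous_exp.tendsto 0).comp (by
          simpa only [Real.rpow_one] using tendsto_log_mul_rpow_nhdsGT_zero zero_lt_one)
      rw [Real.exp_zero] at h2
      refine h2.congr' ?_
      filter_upwards [self_mem_nhdsWithin] with x hx
      rw [Real.rpow_def_of_pos hx]
    exact h1.comp hx0
  have hsg : Tendsto (sg n) (𝓝[<] Q) (𝓝 (sg n Q)) :=
    (m2_sg_cont hn (by linarith : (0 : ℝ) ≤ Q)).tendsto.mono_left nhdsWithin_le_nhds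
  have hsg1 : Tendsto (fun p : ℝ => sg n (p - 1)) (𝓝[<] Q) (𝓝 (sg n (Q - 1))) :=
    (m2_sg_cont hn (by linarith : (0 : ℝ) ≤ Q - 1)).tendsto.comp (hid.sub_const 1)
  have hsQ : 0 < sg n Q := m2_sg_pos hn (by linarith)
  -- the first factor
  have hA : Tendsto (fun p : ℝ => (Q * p * 2 ^ p * Real.log 2) ^ ((Q - p) / Q) /
      ((Q - p) ^ (Q - p)) ^ (1 / Q)) (𝓝[<] Q) (𝓝 1) := by
    have h1 : Tendsto (fun p : ℝ => Q * p * 2 ^ p * Real.log 2) (𝓝[<] Q)
        (𝓝 (Q * Q * 2 ^ Q * Real.log 2)) :=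
      ((hid.const_mul Q).mul ((tendsto_const_nhds (x := (2 : ℝ))).rpow hid
        (Or.inl (by norm_num)))).mul_const _
    have hpos : Q * Q * 2 ^ Q * Real.log 2 ≠ 0 := by
      have : 0 < Real.log 2 := Real.log_pos (by norm_num)
      positivity
    have h2 : Tendsto (fun p : ℝ => (Q - p) / Q) (𝓝[<] Q) (𝓝 0) := by
      have := hx1.div_const Q
      rwa [zero_div] at this
    have h3 := h1.rpow h2 (Or.inl hpos)
    rw [Real.rpow_zero] at h3
    have h4 := hxx.rpow_const (p := 1 / Q) (Or.inl one_ne_zero)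
    rw [Real.one_rpow] at h4
    have h5 := h3.div h4 one_ne_zero
    rwa [div_one] at h5
  -- the second factor
  have hB : Tendsto (fun p : ℝ => ((sg n p)⁻¹ * ((sg n p * (p - 1)) ^ (1 - 1 / p) *
      ((Q - p) ^ (Q - p)) ^ (1 / p) + sg n (p - 1) * (Q - p) ^ ((Q - 1) / p))) ^ p)
      (𝓝[<] Q) (𝓝 (((sg n Q)⁻¹ * ((sg n Q * (Q - 1)) ^ (1 - 1 / Q) * 1 +
        sg n (Q - 1) * 0)) ^ Q)) := by
    have hinv : Tendsto (fun p : ℝ => 1 / p) (𝓝[<] Q) (𝓝 (1 / Q)) :=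
      (tendsto_const_nhds (x := (1 : ℝ))).div hid hQ0.ne'
    have h1 : Tendsto (fun p : ℝ => (sg n p * (p - 1)) ^ (1 - 1 / p)) (𝓝[<] Q)
        (𝓝 ((sg n Q * (Q - 1)) ^ (1 - 1 / Q))) := by
      refine (hsg.mul (hid.sub_const 1)).rpow (tendsto_const_nhds.sub hinv) (Or.inl ?_)
      have : 0 < Q - 1 := by linarith
      positivity
    have h2 : Tendsto (fun p : ℝ => ((Q - p) ^ (Q - p)) ^ (1 / p)) (𝓝[<] Q) (𝓝 1) := by
      have := hxx.rpow hinv (Or.inl one_ne_zero)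
      rwa [Real.one_rpow] at this
    have h3 : Tendsto (fun p : ℝ => (Q - p) ^ ((Q - 1) / p)) (𝓝[<] Q) (𝓝 0) := by
      have hdiv : Tendsto (fun p : ℝ => (Q - 1) / p) (𝓝[<] Q) (𝓝 ((Q - 1) / Q)) :=
        tendsto_const_nhds.div hid hQ0.ne'
      have hpos : 0 < (Q - 1) / Q := div_pos (by linarith) hQ0
      have := hx1.rpow hdiv (Or.inr hpos)
      rwa [Real.zero_rpow hpos.ne'] at this
    have h4 := (hsg.inv₀ hsQ.ne').mul ((h1.mul h2).add (hsg1.mul h3))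
    exact h4.rpow hid (Or.inr hQ0)
  have hall := hA.mul hB
  have hlim : 1 * ((sg n Q)⁻¹ * ((sg n Q * (Q - 1)) ^ (1 - 1 / Q) * 1 +
        sg n (Q - 1) * 0)) ^ Q = (2 * (n : ℝ) + 1) ^ (2 * n + 1) / sg n Q := by
    have hQ1 : 0 < Q - 1 := by linarith
    rw [mul_one, mul_zero, add_zero, one_mul, Real.mul_rpow (by positivity) (by positivity),
      ← Real.rpow_mul (by positivity)]
    have e1 : (1 - 1 / Q) * Q = Q - 1 := by field_simp
    rw [e1, Real.mul_rpow hsQ.le hQ1.le, Real.inv_rpow hsQ.le]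
    have e2 : (Q - 1) ^ (Q - 1) = (2 * (n : ℝ) + 1) ^ (2 * n + 1) := by
      have h3 : Q - 1 = 2 * (n : ℝ) + 1 := by rw [hQ]; ring
      rw [h3, ← Real.rpow_natCast]
      congr 1
      push_cast
      ring
    have e3 : sg n Q ^ Q = sg n Q ^ (Q - 1) * sg n Q := by
      rw [Real.rpow_sub_one hsQ.ne', div_mul_cancel₀ _ hsQ.ne']
    rw [e2, e3]
    have h4 : sg n Q ^ (Q - 1) ≠ 0 := (Real.rpow_pos_of_pos hsQ _).ne'
    field_simp
  rw [hlim] at hall
  refine hall.congr' ?_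
  have hmem : Ioo (1 : ℝ) Q ∈ 𝓝[<] Q := Ioo_mem_nhdsLT (by linarith)
  filter_upwards [hmem] with p hp
  have hx : 0 < Q - p := sub_pos.2 hp.2
  have hp1 : 0 < p - 1 := sub_pos.2 hp.1
  have hp0 : 0 < p := by linarith
  have hsp : 0 < sg n p := m2_sg_pos hn hp0.le
  have hsp1 : 0 < sg n (p - 1) := m2_sg_pos hn hp1.le
  have hk := m2_key n Q p (sg n p) (sg n (p - 1)) (Q - p) hQ rfl hx hp.1 hsp hsp1
  have hlog : 0 < Real.log 2 := Real.log_pos (by norm_num)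
  unfold UB DD
  rw [← hQ, ← hk, Real.one_rpow, Real.one_rpow, mul_one, mul_one]
  have e1 : (Q * p / (Q - p) * 2 ^ p * Real.log 2) ^ ((Q - p) / Q) =
      (Q * p * 2 ^ p * Real.log 2) ^ ((Q - p) / Q) / ((Q - p) ^ (Q - p)) ^ (1 / Q) := by
    rw [← Real.rpow_mul hx.le, mul_one_div, ← Real.div_rpow (by positivity) hx.le]
    congr 1
    ring
  rw [e1]
  ring

end Pool.Agent.H86.HQ
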